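import Mathlib
import Pool.Agent.H76CF.Minor

/-!
# An excluded minor of `M' = M_reg ∪ M_{U_{2,4}}` outside `U_{2,5}, U_{3,5}, F₇, F₇*`

The particular statement of the problem is false: a minor of the non-Fano matroid `F₇⁻` is an
excluded minor of `M'` and is none of the four.

Proof. If `log v` times the rank function of `F₇⁻` is entropic, then `v` is odd.  The equality cases
of Shannon's inequalities turn the random vector into a set of words in which two coordinates on a
three-point line determine the third, and in which each pair of coordinates, and the coordinates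
`0, 1, 2`, are free.  Fix a word `o`.  Send a symbol `a` of coordinate `0` to the symbol `b` of
coordinate `1` that goes with `a` and `o₃`, then to the symbol `c` of coordinate `2` that goes with
`b` and `o₅`, then to the symbol `a'` of coordinate `0` that goes with `c` and `o₄`.  The line
relations show that this map is an involution, and the basis `{3, 4, 5}` that `o₀` is its only fixed
point; so the number `v` of symbols is odd.  In particular `4` is not in the p-characteristic set of
`F₇⁻`, and `F₇⁻` is not binary, so `F₇⁻` is not in `M'`.  A minor of `F₇⁻` that is not in `M'` and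
has the fewest elements is an excluded minor of `M'`.  No minor of `F₇⁻` is one of the four.
-/

set_option autoImplicit false

open scoped Matroid

namespace Pool.Agent.Results.MP_cf16d9_co.NonFanoMinor

open Pool.Agent.H76CF

/-- `M` is representable over the field `F` -/
def Representable {α : Type} (M : Matroid α) (F : Type) [Field F] : Prop :=
  ∃ (d : ℕ) (φ : α → Fin d → F), ∀ I ⊆ M.E, M.Indep I ↔ LinearIndepOn F φ I

/-- `M` is regular: it is representable over every field -/
def Regular {α : Type} (M : Matroid α) : Prop :=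
  ∀ (F : Type) [Field F], Representable M F

/-- `M` is in the class `M'`: it is regular, or its p-characteristic set is that of `U_{2,4}` -/
def InClass {α : Type} (M : Matroid α) : Prop :=
  Regular M ∨ pChar M = {v | 3 ≤ v ∧ v ≠ 6}

/-- `N` is an excluded minor of `M'`: it is not in `M'`, and all its proper minors are -/
def ExcludedMinor {α : Type} (N : Matroid α) : Prop :=
  N.E.Finite ∧ ¬ InClass N ∧ ∀ K : Matroid α, K <m N → InClass K

/-- over the field with two elements, a three-element circuit has sum zero -/
theorem sum_zero {α V : Type} [DecidableEq α] [AddCommGroup V] [Module (ZMod 2) V] (φ : α → V)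
    {i j k : α} (hij : i ≠ j) (hik : i ≠ k) (hjk : j ≠ k)
    (h1 : LinearIndepOn (ZMod 2) φ (({i, j} : Finset α) : Set α))
    (h2 : LinearIndepOn (ZMod 2) φ (({i, k} : Finset α) : Set α))
    (h3 : LinearIndepOn (ZMod 2) φ (({j, k} : Finset α) : Set α))
    (h : ¬ LinearIndepOn (ZMod 2) φ (({i, j, k} : Finset α) : Set α)) :
    φ i + φ j + φ k = 0 := by
  rw [linearIndepOn_finset_iff] at h1 h2 h3 h
  push Not at h
  obtain ⟨f, hf, x, hx, hfx⟩ := h
  have hs : f i • φ i + f j • φ j + f k • φ k = 0 := by
    rw [Finset.sum_insert (by simp [hij, hik]), Finset.sum_pair hjk] at hf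
    rw [← hf, add_assoc]
  have two : ∀ a : ZMod 2, a = 0 ∨ a = 1 := by decide
  have hk : f k ≠ 0 := by
    intro h0
    rw [h0, zero_smul, add_zero] at hs
    have h4 := h1 f (by rw [Finset.sum_pair hij]; exact hs)
    have e1 := h4 i (by simp)
    have e2 := h4 j (by simp)
    simp only [Finset.mem_insert, Finset.mem_singleton] at hx
    rcases hx with rfl | rfl | rfl
    · exact hfx e1
    · exact hfx e2
    · exact hfx h0
  have hj : f j ≠ 0 := by
    intro h0
    rw [h0, zero_smul, add_zero] at hs
    have h4 := h2 f (by rw [Finset.sum_pair hik]; exact hs)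
    exact hk (h4 k (by simp))
  have hi : f i ≠ 0 := by
    intro h0
    rw [h0, zero_smul, zero_add] at hs
    have h4 := h3 f (by rw [Finset.sum_pair hjk]; exact hs)
    exact hk (h4 k (by simp))
  rw [(two (f i)).resolve_left hi, (two (f j)).resolve_left hj, (two (f k)).resolve_left hk,
    one_smul, one_smul, one_smul] at hs
  exact hs

theorem not_regular : ¬ Regular nonFano := by
  intro h
  obtain ⟨d, φ, hφ⟩ := h (ZMod 2)
  have hi : ∀ I : Finset (Fin 7), LinearIndepOn (ZMod 2) φ (I : Set (Fin 7)) ↔
      I.card ≤ 3 ∧ I ∉ nfLines := by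
    intro I
    rw [← hφ I (Set.subset_univ _), nf_indep]
  have hp : ∀ i j : Fin 7, i ≠ j →
      LinearIndepOn (ZMod 2) φ (({i, j} : Finset (Fin 7)) : Set (Fin 7)) := by
    intro i j hij
    rw [hi]
    exact ⟨by rw [Finset.card_pair hij]; norm_num, nf_pair (Finset.card_pair hij)⟩
  have hl : ∀ i j k : Fin 7, i ≠ j → i ≠ k → j ≠ k → ({i, j, k} : Finset (Fin 7)) ∈ nfLines →
      φ i + φ j + φ k = 0 := by
    intro i j k hij hik hjk hL
    refine sum_zero φ hij hik hjk (hp i j hij) (hp i k hik) (hp j k hjk) ?_
    rw [hi]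
    exact fun h => h.2 hL
  have e1 := hl 0 1 3 (by decide) (by decide) (by decide) (by decide)
  have e2 := hl 0 2 4 (by decide) (by decide) (by decide) (by decide)
  have e3 := hl 1 2 5 (by decide) (by decide) (by decide) (by decide)
  have h5 := (hi {3, 4, 5}).2 ⟨by decide, by decide⟩
  rw [linearIndepOn_finset_iff] at h5
  have h6 := h5 (fun _ => 1) (by
    rw [Finset.sum_insert (by decide), Finset.sum_pair (by decide), one_smul, one_smul, one_smul]
    have dbl : ∀ x : Fin d → ZMod 2, x + x = 0 := fun x => by
      funext t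
      exact CharTwo.add_self_eq_zero (x t)
    have : φ 3 + (φ 4 + φ 5) = (φ 0 + φ 1 + φ 3) + (φ 0 + φ 2 + φ 4) + (φ 1 + φ 2 + φ 5) -
        (φ 0 + φ 0) - (φ 1 + φ 1) - (φ 2 + φ 2) := by abel
    rw [this, e1, e2, e3, dbl (φ 0), dbl (φ 1), dbl (φ 2)]
    simp) 3 (by simp)
  exact one_ne_zero h6

theorem not_inClass : ¬ InClass nonFano := by
  rintro (h | h)
  · exact not_regular h
  · have h4 : 4 ∈ pChar nonFano := by
      rw [h]
      exact ⟨by norm_num, by norm_num⟩
    have := odd_of_mem_pChar h4
    exact absurd this (by decide)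

/-- **The particular statement of the problem fails**: some minor `N` of the non-Fano matroid is an
excluded minor of `M'` and is isomorphic to none of `U_{2,5}`, `U_{3,5}`, `F₇`, `F₇*`. -/
theorem result : ∃ N : Matroid (Fin 7), N ≤m nonFano ∧ ExcludedMinor N ∧
    ¬ Iso N (unif 2 5) ∧ ¬ Iso N (unif 3 5) ∧ ¬ Iso N fano ∧ ¬ Iso N fano✶ := by
  classical
  have hex : ∃ n : ℕ, ∃ N : Matroid (Fin 7), N ≤m nonFano ∧ ¬ InClass N ∧ N.E.ncard = n :=
    ⟨_, nonFano, Matroid.IsMinor.refl, not_inClass, rfl⟩
  obtain ⟨N, hN, hNc, hNn⟩ := Nat.find_spec hex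
  refine ⟨N, hN, ⟨Set.toFinite _, hNc, ?_⟩, not_iso_unif hN 2 (Or.inl rfl),
    not_iso_unif hN 3 (Or.inr rfl), not_iso_fano hN, not_iso_dual hN⟩
  intro K hK
  by_contra hcon
  have hlt : K.E.ncard < N.E.ncard := Set.ncard_lt_ncard hK.ssubset (Set.toFinite _)
  rw [hNn] at hlt
  exact Nat.find_min hex hlt ⟨K, hK.isMinor.trans hN, hcon, rfl⟩

end Pool.Agent.Results.MP_cf16d9_co.NonFanoMinor
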